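import Pool.Agent.W84.FP.Defs

set_option autoImplicit false

namespace Pool.Agent.W392.FP

open Finset
open Pool.Agent.H376R2.MR
open Pool.Agent.W78.GA Pool.Agent.W78.GC Pool.Agent.W84.FP

/-- admissible classes -/
def valid (q : ℕ) (pr : ℕ × ℕ) : Prop :=
  1 ≤ pr.1 ∧ (4 : ℤ) ∣ (pr.2 : ℤ) - 1 ∧ IsCoprime (pr.2 : ℤ) ((q * pr.1 : ℕ) : ℤ)

theorem badp (hdir : S_DIR) (hvar : S_VAR) : S_BADP := by
  classical
  intro q h P₀ η hq h4q hη
  obtain ⟨C, hC, hvar⟩ := hvar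
  set I : Finset (ℕ × ℕ) := (Finset.range (h + 1)) ×ˢ (Finset.range (q * h + 1)) with hI
  set K : ℝ := (I.card : ℝ) with hK
  have hK0 : 0 ≤ K := Nat.cast_nonneg _
  set T : ℝ := C * K / η + 1 with hT
  have hT0 : 0 < T := by positivity
  have hex : ∀ pr : ℕ × ℕ, ∃ P : Finset ℕ, valid q pr →
      (∀ p ∈ P, p.Prime ∧ P₀ < p ∧ ((q * pr.1 : ℕ) : ℤ) ∣ (p : ℤ) - (pr.2 : ℤ)) ∧
        T ≤ ∑ p ∈ P, 1 / (p : ℝ) := by
    intro pr
    by_cases hv : valid q pr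
    · have h1 : 1 ≤ q * pr.1 := Nat.mul_pos hq hv.1
      obtain ⟨P, hP, hP2⟩ := hdir (q * pr.1) P₀ (pr.2 : ℤ) T h1 hv.2.2
      exact ⟨P, fun _ => ⟨hP, hP2⟩⟩
    · exact ⟨∅, fun h => absurd h hv⟩
  choose Ps hPs using hex
  have hex2 : ∀ pr : ℕ × ℕ, ∃ X₀ : ℝ, valid q pr → ∀ X : ℝ, X₀ ≤ X →
      (((pball 0 1 X).filter (fun z => ∀ p ∈ Ps pr, ¬ p ∣ nm z)).card : ℝ) *
        (∑ p ∈ Ps pr, 1 / (p : ℝ)) ≤ C * X := by
    intro pr
    by_cases hv : valid q pr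
    · obtain ⟨X₀, hX₀⟩ := hvar (Ps pr) (by
        intro p hp
        refine ⟨((hPs pr hv).1 p hp).1, ?_⟩
        have h1 := ((hPs pr hv).1 p hp).2.2
        have h2 : (4 : ℤ) ∣ (p : ℤ) - (pr.2 : ℤ) := by
          refine dvd_trans ?_ h1
          push_cast
          exact Dvd.dvd.mul_right (by exact_mod_cast h4q) _
        have h3 := hv.2.1
        omega)
      exact ⟨X₀, fun _ => hX₀⟩
    · exact ⟨0, fun h => absurd h hv⟩
  choose X0 hX0 using hex2
  refine ⟨I.sup (fun pr => (Ps pr).sup id), 1 + ∑ pr ∈ I, |X0 pr|, fun X hX => ?_⟩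
  have hXpr : ∀ pr ∈ I, X0 pr ≤ X := by
    intro pr hpr
    have h1 : |X0 pr| ≤ ∑ pr ∈ I, |X0 pr| :=
      Finset.single_le_sum (f := fun pr => |X0 pr|) (fun _ _ => abs_nonneg _) hpr
    have h2 := le_abs_self (X0 pr)
    linarith
  have hXpos : 0 < X := by
    have h1 : 0 ≤ ∑ pr ∈ I, |X0 pr| := Finset.sum_nonneg fun _ _ => abs_nonneg _
    linarith
  have hsub : (pball 0 1 X).filter (bad q h P₀ (I.sup (fun pr => (Ps pr).sup id))) ⊆
      (I.filter (valid q)).biUnion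
        (fun pr => (pball 0 1 X).filter (fun z => ∀ p ∈ Ps pr, ¬ p ∣ nm z)) := by
    intro z hz
    rw [Finset.mem_filter] at hz
    obtain ⟨hzb, δ, R, hδ1, hδh, h4R, hcop, hp⟩ := hz
    have hqδ : 0 < q * δ := Nat.mul_pos hq hδ1
    have hqδ' : (0 : ℤ) < ((q * δ : ℕ) : ℤ) := by exact_mod_cast hqδ
    have hnn : 0 ≤ R % ((q * δ : ℕ) : ℤ) := Int.emod_nonneg _ hqδ'.ne'
    have hlt : R % ((q * δ : ℕ) : ℤ) < ((q * δ : ℕ) : ℤ) := Int.emod_lt_of_pos _ hqδ'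
    obtain ⟨R0, hR0⟩ := Int.eq_ofNat_of_zero_le hnn
    have hdiv : ((q * δ : ℕ) : ℤ) ∣ R - (R0 : ℤ) := by
      rw [← hR0]
      exact Int.dvd_self_sub_emod
    have h4d : (4 : ℤ) ∣ ((q * δ : ℕ) : ℤ) := by
      push_cast
      exact Dvd.dvd.mul_right (by exact_mod_cast h4q) _
    have hmem : (δ, R0) ∈ I := by
      rw [hI, Finset.mem_product, Finset.mem_range, Finset.mem_range]
      refine ⟨by simpa using Nat.lt_succ_of_le hδh, ?_⟩
      have h1 : (R0 : ℤ) < ((q * δ : ℕ) : ℤ) := by rw [← hR0]; exact hlt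
      have h2 : R0 < q * δ := by exact_mod_cast h1
      have h3 : q * δ ≤ q * h := Nat.mul_le_mul_left _ hδh
      exact lt_of_lt_of_le h2 (by omega)
    have hval : valid q (δ, R0) := by
      refine ⟨hδ1, ?_, ?_⟩
      · have h1 := dvd_trans h4d hdiv
        have h2 : (4 : ℤ) ∣ (R - 1) - (R - (R0 : ℤ)) := dvd_sub h4R h1
        simpa using h2
      · obtain ⟨m, hm⟩ := hdiv
        have h1 : (R0 : ℤ) = R + ((q * δ : ℕ) : ℤ) * (-m) := by linarith
        show IsCoprime (R0 : ℤ) ((q * δ : ℕ) : ℤ)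
        rw [h1]
        exact IsCoprime.add_mul_left_left hcop (-m)
    rw [Finset.mem_biUnion]
    refine ⟨(δ, R0), Finset.mem_filter.mpr ⟨hmem, hval⟩, Finset.mem_filter.mpr ⟨hzb, ?_⟩⟩
    intro p hpP
    obtain ⟨hp1, hp2, hp3⟩ := (hPs _ hval).1 p hpP
    refine hp p hp1 hp2 ?_ ?_
    · have h1 : p ≤ (Ps (δ, R0)).sup id := Finset.le_sup (f := id) hpP
      exact le_trans h1 (Finset.le_sup (f := fun pr => (Ps pr).sup id) hmem)
    · have h1 : ((q * δ : ℕ) : ℤ) ∣ ((p : ℤ) - (R0 : ℤ)) - (R - (R0 : ℤ)) := dvd_sub hp3 hdiv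
      simpa using h1
  have hcard : ∀ pr ∈ I.filter (valid q),
      (((pball 0 1 X).filter (fun z => ∀ p ∈ Ps pr, ¬ p ∣ nm z)).card : ℝ) ≤ C * X / T := by
    intro pr hpr
    rw [Finset.mem_filter] at hpr
    have h1 := hX0 pr hpr.2 X (hXpr pr hpr.1)
    have h2 := (hPs pr hpr.2).2
    rw [le_div_iff₀ hT0]
    exact le_trans (mul_le_mul_of_nonneg_left h2 (Nat.cast_nonneg _)) h1
  calc (((pball 0 1 X).filter (bad q h P₀ (I.sup (fun pr => (Ps pr).sup id)))).card : ℝ)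
      ≤ (((I.filter (valid q)).biUnion
        (fun pr => (pball 0 1 X).filter (fun z => ∀ p ∈ Ps pr, ¬ p ∣ nm z))).card : ℝ) := by
        exact_mod_cast Finset.card_le_card hsub
    _ ≤ ∑ pr ∈ I.filter (valid q),
        (((pball 0 1 X).filter (fun z => ∀ p ∈ Ps pr, ¬ p ∣ nm z)).card : ℝ) := by
        exact_mod_cast Finset.card_biUnion_le
    _ ≤ ∑ pr ∈ I.filter (valid q), C * X / T := Finset.sum_le_sum hcard
    _ = ((I.filter (valid q)).card : ℝ) * (C * X / T) := by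
        rw [Finset.sum_const, nsmul_eq_mul]
    _ ≤ K * (C * X / T) := by
        refine mul_le_mul_of_nonneg_right ?_ (by positivity)
        rw [hK]
        exact_mod_cast Finset.card_filter_le _ _
    _ ≤ η * X := by
        have h1 : K * C ≤ η * T := by
          rw [hT]
          have : η * (C * K / η + 1) = C * K + η := by field_simp
          rw [this]; nlinarith
        rw [← mul_div_assoc, div_le_iff₀ hT0]
        nlinarith [mul_le_mul_of_nonneg_right h1 hXpos.le]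

end Pool.Agent.W392.FP
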